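import Pool.Agent.H3.CohB

set_option autoImplicit false

namespace Pool.Agent.Results.MP_b621dd_an.Q2No

open Pool.Agent.H3.Coh

/-- In the ring of bounded holomorphic functions on the unit ball of ℂ² there are two finitely
generated ideals whose intersection is not finitely generated. -/
theorem result : BadPair (HInf ballTwo) := by
  have h0 : ∃ f g : HInf ballTwo, ¬ (Ideal.span {f} ⊓ Ideal.span {g}).FG := ball_case
  obtain ⟨f, g, h⟩ := h0
  exact ⟨Ideal.span {f}, Ideal.span {g}, Submodule.fg_span_singleton f,
    Submodule.fg_span_singleton g, h⟩

end Pool.Agent.Results.MP_b621dd_an.Q2No
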